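import Pool.Agent.helper78.WB.SpecIII

/-!
# Project wb, row CELL2
-/

set_option autoImplicit false

namespace Pool.Agent.WB

open MvPolynomial

theorem CELL2 (h1 : IMG_stmt) (h2 : PIGW_stmt) (h3 : NDW_stmt) (h4 : BZ_stmt) : CELL2_stmt := by
  intro ℓ hℓ j N X₀ d n p hirr hp hd hw hn hX hN hbig C hNP hC hprop hord
  have hℓ0 : 0 < ℓ := hℓ.out.pos
  have himg := h1 ℓ j C p d 1 (2 * n + 1) n hp (fun ζ hζ => ⟨(hC ζ hζ).2.2.2.1, (hC ζ hζ).2.2.2.2⟩)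
    hprop hord
  have hexp : 1 * ((2 * n + 1) * (2 * n + 1 + 1) / 2) = (2 * n + 1) * (n + 1) := by
    have : (2 * n + 1) * (2 * n + 1 + 1) = 2 * ((2 * n + 1) * (n + 1)) := by ring
    rw [this, Nat.mul_div_cancel_left _ (by norm_num : 0 < 2), one_mul]
  rw [hexp] at himg
  set q := ℓ ^ (2 * n + 1) with hq
  have hq0 : 0 < q := pow_pos hℓ0 _
  set D₁ := 4 * (n + 1) * X₀ ^ n with hD₁
  set D₂ := 4 * (n + 1) * X₀ ^ (n - 1) * N with hD₂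
  have hD₁0 : 0 < D₁ := by positivity
  have hD₂0 : 0 < D₂ := by positivity
  set H₁ := q / D₁ with hH₁
  set H₂ := q / D₂ with hH₂
  have ha : q < (H₁ + 1) * D₁ := by
    have := Nat.lt_div_mul_add (a := q) hD₁0
    rw [← hH₁] at this
    calc q < H₁ * D₁ + D₁ := this
      _ = (H₁ + 1) * D₁ := by ring
  have hb : q < (H₂ + 1) * D₂ := by
    have := Nat.lt_div_mul_add (a := q) hD₂0
    rw [← hH₂] at this
    calc q < H₂ * D₂ + D₂ := this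
      _ = (H₂ + 1) * D₂ := by ring
  have hDD : D₁ ^ (n + 1) * D₂ ^ n = (4 * n + 4) ^ (2 * n + 1) * X₀ ^ (2 * n ^ 2) * N ^ n := by
    obtain ⟨k, rfl⟩ : ∃ k, n = k + 1 := ⟨n - 1, by omega⟩
    rw [hD₁, hD₂]
    simp only [Nat.add_sub_cancel]
    have e1 : 4 * (k + 1 + 1) = 4 * (k + 1) + 4 := by ring
    rw [e1]
    have e2 : 2 * (k + 1) ^ 2 = (k + 1) * (k + 1 + 1) + k * (k + 1) := by ring
    have e3 : 2 * (k + 1) + 1 = (k + 1 + 1) + (k + 1) := by ring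
    rw [e2, e3, pow_add (4 * (k + 1) + 4) (k + 1 + 1) (k + 1),
      pow_add X₀ ((k + 1) * (k + 1 + 1)) (k * (k + 1)), pow_mul X₀ (k + 1) (k + 1 + 1),
      pow_mul X₀ k (k + 1)]
    generalize 4 * (k + 1) + 4 = A
    generalize X₀ ^ (k + 1) = B
    generalize X₀ ^ k = B'
    rw [mul_pow A B, mul_pow (A * B') N, mul_pow A B']
    generalize A ^ (k + 1 + 1) = a1
    generalize A ^ (k + 1) = a2
    ring
  have hcard : (valSet n q C).ncard < (H₁ + 1) ^ (n + 1) * (H₂ + 1) ^ n := by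
    have hc1 : q ^ (n + 1) < ((H₁ + 1) * D₁) ^ (n + 1) := Nat.pow_lt_pow_left ha (by omega)
    have hc2 : q ^ n < ((H₂ + 1) * D₂) ^ n := Nat.pow_lt_pow_left hb (by omega)
    have hc3 : q ^ (n + 1) * q ^ n < ((H₁ + 1) * D₁) ^ (n + 1) * ((H₂ + 1) * D₂) ^ n :=
      Nat.mul_lt_mul'' hc1 hc2
    have hc4 : q ^ (n + 1) * q ^ n = ℓ ^ ((2 * n + 1) * (n + 1)) * ℓ ^ (n * (2 * n + 1)) := by
      rw [hq, ← pow_mul, ← pow_mul, ← pow_add, ← pow_add]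
      congr 1
      ring
    have hc5 : ((H₁ + 1) * D₁) ^ (n + 1) * ((H₂ + 1) * D₂) ^ n =
        ((H₁ + 1) ^ (n + 1) * (H₂ + 1) ^ n) * (D₁ ^ (n + 1) * D₂ ^ n) := by
      rw [mul_pow (H₁ + 1) D₁, mul_pow (H₂ + 1) D₂, mul_mul_mul_comm]
    rw [hc4, hc5, hDD] at hc3
    have hc6 : ℓ ^ ((2 * n + 1) * (n + 1)) *
        ((4 * n + 4) ^ (2 * n + 1) * X₀ ^ (2 * n ^ 2) * N ^ n) <
        ((H₁ + 1) ^ (n + 1) * (H₂ + 1) ^ n) *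
        ((4 * n + 4) ^ (2 * n + 1) * X₀ ^ (2 * n ^ 2) * N ^ n) :=
      lt_of_le_of_lt (Nat.mul_le_mul_left _ hbig) hc3
    exact lt_of_le_of_lt himg (lt_of_mul_lt_mul_right hc6 (Nat.zero_le _))
  obtain ⟨Q, hQ0, hQh, hQd, hQdvd, hQsize⟩ := h2 n q H₁ H₂ C hq0 hn hcard
  have hnd : ¬ p ∣ Q := h3 p Q hw hQ0 hQd
  have hs1 : 4 * ((n + 1) * H₁ * X₀ ^ n) ≤ q := by
    have := Nat.div_mul_le_self q D₁
    calc 4 * ((n + 1) * H₁ * X₀ ^ n) = q / D₁ * D₁ := by rw [← hH₁, hD₁]; ring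
      _ ≤ q := this
  have hs2 : 4 * (n * H₂ * X₀ ^ (n - 1) * N) ≤ q := by
    have := Nat.div_mul_le_self q D₂
    calc 4 * (n * H₂ * X₀ ^ (n - 1) * N) ≤ 4 * ((n + 1) * H₂ * X₀ ^ (n - 1) * N) := by gcongr; omega
      _ = q / D₂ * D₂ := by rw [← hH₂, hD₂]; ring
      _ ≤ q := this
  have hzero : ∀ ζ ∈ C, eval ζ Q = 0 := by
    intro ζ hζ
    have hz1 := hQsize ζ X₀ N (hC ζ hζ).1 (hC ζ hζ).2.1 (hC ζ hζ).2.2.1
    have hz2 : (4 : ℤ) * (((n : ℤ) + 1) * (H₁ : ℤ) * (X₀ : ℤ) ^ n) ≤ (q : ℤ) := by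
      exact_mod_cast hs1
    have hz3 : (4 : ℤ) * ((n : ℤ) * (H₂ : ℤ) * (X₀ : ℤ) ^ (n - 1) * (N : ℤ)) ≤ (q : ℤ) := by
      exact_mod_cast hs2
    have hz4 : (0 : ℤ) < (q : ℤ) := by exact_mod_cast hq0
    refine Int.eq_zero_of_abs_lt_dvd (hQdvd ζ hζ) ?_
    have hz5 : |eval ζ Q| ≤ ((n : ℤ) + 1) * (H₁ : ℤ) * (X₀ : ℤ) ^ n +
        (n : ℤ) * (H₂ : ℤ) * (X₀ : ℤ) ^ (n - 1) * (N : ℤ) := hz1
    linarith
  refine h4 p Q d n hirr hp (by omega) hQh hnd C hNP ?_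
  intro ζ hζ
  refine ⟨?_, (hC ζ hζ).2.2.2.2, hzero ζ hζ⟩
  intro h0
  exact (hC ζ hζ).2.2.2.1 (by rw [h0]; exact dvd_zero _)

end Pool.Agent.WB
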