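import Pool.Agent.helper75.WB.SpecI

/-!
# Project wb, row ISC
-/

set_option autoImplicit false

namespace Pool.Agent.WB

open Finset

theorem rel_swap74 {X0 : ℝ} {q q' : ℤ} {p p' Δ : ℕ} (h : Rel X0 (q, q') p p' Δ) :
    Rel X0 (q', q) p p' Δ := by
  obtain ⟨x, y, x', y', h1, h2, h3, h4, h5, h6, h7⟩ := h
  refine ⟨y, x, y', x', ?_, ?_, h4, h3, h6, h5, ?_⟩
  · simp only at h1 ⊢
    rw [← h1]; ring
  · simp only at h2 ⊢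
    rw [← h2]; ring
  · rw [← h7, ← Int.natAbs_neg]
    congr 1
    ring

theorem relD_swap74 {X0 Y : ℝ} {q q' : ℤ} {p p' : ℕ} :
    RelD X0 Y (q, q') p p' ↔ RelD X0 Y (q', q) p p' := by
  constructor
  · rintro ⟨Δ, hΔ, h⟩
    exact ⟨Δ, hΔ, rel_swap74 h⟩
  · rintro ⟨Δ, hΔ, h⟩
    exact ⟨Δ, hΔ, rel_swap74 h⟩

theorem TG_swap74 (X0 Y : ℝ) (E : Finset ℕ) (P : ℕ → Finset ℕ) (q q' : ℤ) :
    TG X0 Y E P (q, q') = TG X0 Y E P (q', q) := by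
  ext g
  rw [mem_TG, mem_TG, relD_swap74]

theorem ISC (hILN : ILN_stmt) : ISC_stmt := by
  intro α lam ε h1 h2 h3 h4 h5
  obtain ⟨δ₁, hδ₁, h⟩ := hILN α lam ε h1 h2 h3 h4 h5
  refine ⟨δ₁, hδ₁, fun δ h6 h7 => ?_⟩
  obtain ⟨N₀, hN⟩ := h δ h6 h7
  refine ⟨N₀, fun N hN0 r hr hrN a E hE c hc => ?_⟩
  rw [mem_Ch] at hc
  obtain ⟨q, q'⟩ := c
  simp only at hc
  rcases le_total |q| |q'| with hle | hle
  · exact hN N hN0 r hr hrN a E q q' hE hc.2.2 hle hc.2.1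
  · rw [TG_swap74]
    exact hN N hN0 r hr hrN a E q' q hE hc.2.2.symm hle hc.1

end Pool.Agent.WB
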